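import Pool.Agent.W743.BT.Defs

/-!
Project BT, task TENF: sums of products.
-/

set_option autoImplicit false

namespace W327.BT

open Set Filter MeasureTheory
open scoped Topology ContDiff FourierTransform ENNReal RealInnerProductSpace
open Pool.Agent.W773.BRA (E)
open Pool.Agent.W743.BT

variable {n : ℕ}

theorem emb : MeasurableEmbedding (WithLp.toLp 2 : (Fin n → ℝ) → E n) :=
  (MeasurableEquiv.toLp 2 (Fin n → ℝ)).measurableEmbedding

theorem int_iff (f : E n → ℂ) :
    Integrable f ↔ Integrable (fun x : Fin n → ℝ => f (WithLp.toLp 2 x)) :=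
  ((PiLp.volume_preserving_toLp (Fin n)).integrable_comp_emb emb).symm

theorem int_iff' (f : E n → ℝ) :
    Integrable f ↔ Integrable (fun x : Fin n → ℝ => f (WithLp.toLp 2 x)) :=
  ((PiLp.volume_preserving_toLp (Fin n)).integrable_comp_emb emb).symm

theorem prod_int (f : Fin n → ℝ → ℂ) (hf : ∀ j, Integrable (f j)) :
    Integrable (fun x : E n => ∏ j, f j (x j)) := by
  rw [int_iff]
  exact Integrable.fintype_prod (μ := fun _ : Fin n => (volume : Measure ℝ)) hf

theorem prod_integral (f : Fin n → ℝ → ℂ) :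
    ∫ x : E n, ∏ j, f j (x j) = ∏ j, ∫ t, f j t := by
  rw [← (PiLp.volume_preserving_toLp (Fin n)).integral_comp emb]
  exact integral_fintype_prod_volume_eq_prod f

theorem prod_meas (f : Fin n → ℝ → ℂ) (hf : ∀ j, Measurable (f j)) :
    Measurable (fun x : E n => ∏ j, f j (x j)) := by
  refine Finset.measurable_prod _ fun j _ => (hf j).comp ?_
  exact (EuclideanSpace.proj j : E n →L[ℝ] ℝ).continuous.measurable

theorem prod_memLp (f : Fin n → ℝ → ℂ) (hf : ∀ j, Measurable (f j)) (hf2 : ∀ j, MemLp (f j) 2) :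
    MemLp (fun x : E n => ∏ j, f j (x j)) 2 := by
  rw [memLp_two_iff_integrable_sq_norm (prod_meas f hf).aestronglyMeasurable]
  have h : ∀ j, Integrable (fun t => ((‖f j t‖ ^ 2 : ℝ) : ℂ)) := fun j =>
    ((memLp_two_iff_integrable_sq_norm (hf j).aestronglyMeasurable).1 (hf2 j)).ofReal
  have h1 := (prod_int _ h).re
  refine h1.congr (Eventually.of_forall fun x => ?_)
  simp only
  rw [← Complex.ofReal_prod, norm_prod, Finset.prod_pow]
  rfl

theorem fourier_prod (f : Fin n → ℝ → ℂ) (ξ : E n) :
    𝓕 (fun x : E n => ∏ j, f j (x j)) ξ = ∏ j, 𝓕 (f j) (ξ j) := by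
  rw [Real.fourier_eq']
  have h : ∀ x : E n, Complex.exp (((-2 * Real.pi * ⟪x, ξ⟫ : ℝ) : ℂ) * Complex.I) • ∏ j, f j (x j) =
      ∏ j, (Complex.exp (((-2 * Real.pi * (x j * ξ j) : ℝ) : ℂ) * Complex.I) * f j (x j)) := by
    intro x
    rw [Finset.prod_mul_distrib, smul_eq_mul, ← Complex.exp_sum]
    congr 2
    rw [PiLp.inner_apply, ← Finset.sum_mul, ← Complex.ofReal_sum]
    congr 2
    rw [Finset.mul_sum]
    refine Finset.sum_congr rfl fun j _ => ?_
    simp only [RCLike.inner_apply, conj_trivial]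
    ring
  rw [integral_congr_ae (Eventually.of_forall h),
    prod_integral (fun j t => Complex.exp (((-2 * Real.pi * (t * ξ j) : ℝ) : ℂ) * Complex.I) * f j t)]
  refine Finset.prod_congr rfl fun j _ => ?_
  rw [Real.fourier_eq']
  refine integral_congr_ae (Eventually.of_forall fun t => ?_)
  simp only [smul_eq_mul, RCLike.inner_apply, conj_trivial]
  congr 4
  ring

theorem tenf : S_TENF := by
  intro n M g hg
  have hm : ∀ k, Measurable (fun x : E n => ∏ j, g k j (x j)) := fun k =>
    prod_meas _ fun j => (hg k j).1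
  have hi : ∀ k, Integrable (fun x : E n => ∏ j, g k j (x j)) := fun k =>
    prod_int _ fun j => (hg k j).2.1
  have h2 : ∀ k, MemLp (fun x : E n => ∏ j, g k j (x j)) 2 := fun k =>
    prod_memLp _ (fun j => (hg k j).1) fun j => (hg k j).2.2
  refine ⟨?_, ?_, ?_, ?_⟩
  · exact Finset.measurable_sum _ fun k _ => hm k
  · exact integrable_finsetSum _ fun k _ => hi k
  · exact memLp_finsetSum _ fun k _ => h2 k
  · intro ξ
    have e : 𝓕 (tens g) ξ = ∑ k, 𝓕 (fun x : E n => ∏ j, g k j (x j)) ξ := by
      simp only [Real.fourier_eq]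
      rw [← integral_finsetSum]
      · refine integral_congr_ae (Eventually.of_forall fun x => ?_)
        simp only [tens, Finset.smul_sum]
      · intro k _
        exact (Real.fourierIntegral_convergent_iff ξ).2 (hi k)
    rw [e]
    exact Finset.sum_congr rfl fun k _ => fourier_prod _ ξ

end W327.BT
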